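import Pool.Agent.Helper834.Conseq

/-!
# Symplectic four-manifolds with `3 σ = χ` as coverings of small degree

A symplectic four-manifold is given as a simple branched covering of the complex projective plane or of a
Hirzebruch surface, by the braid monodromy data of its branch curve. The definitions `Covering`, `κ`,
`nodesPos`, `nodesNeg`, `ν`, `genus`, `c1sq` are in `Pool/Agent/Helper834/Model.lean` (starting files).
The condition `3 σ = χ` is `c₁² = 3 c₂`.

* Double coverings of the plane and of the Hirzebruch surfaces never satisfy `3 σ = χ`.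
* For a triple covering of the plane with branch curve of degree `d`, `3 σ = χ` implies that `d` is `0` or
  `6` modulo `24` and `χ = (d - 6) (d - 24) / 16`. So either `χ = 0` (`d = 6` or `d = 24`) or `d ≥ 30` and
  `χ = 9 t (4 t - 3)` or `χ = 9 t (4 t + 3)` with `t ≥ 1`. In particular no manifold with `σ = 1` and
  `χ = 3`, for example no homotopy projective plane, is a triple covering of the plane.
* For a covering of degree four without nodes the same congruence holds and
  `χ = (d² - 30 d + 192) / 16`; so `χ = 3` with `d = 6` or `d = 24`, or `χ ≥ 12` and `d ≥ 30`.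
* The manifolds with `σ = 1`, `χ = 3`: `κ = 9 d - 15 (N - 1)` and `2 ν = d² - 30 d + 48 (N - 1)`. So a covering
  without nodes has degree `N = 4` and `d = 6`, `κ = 9` (this is the case of the projective plane) or
  `d = 24`, `κ = 171`.
* Homotopy projective planes: here the canonical class `K` and the pullback `h` of the class of a line are
  integers with `K² = 9`, `h² = N`, `K h = d - 3 N` (`IsPair`). So `N = m²`, and `d = 3 m (m - 1)` with `K h < 0`
  or `d = 3 m (m + 1)` with `K h > 0`. Without nodes only `N = 4`, `d = 6`, `κ = 9` with `K h < 0` remains;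
  by the theorem of Liu and of Ohta and Ono this manifold is the projective plane.
* For a covering of degree `N ≥ 2` of the Hirzebruch surface `F_k`, `k ≥ 1`, with branch curve of degree `d`
  over the base, without nodes (this is always so for `N = 3`), `3 σ = χ` implies
  `72 N ≤ k d² - 18 k d + 24 d + 32`. So symplectic fibrations by trigonal curves of genus `g = (d - 4)/2 ≤ 3`
  never satisfy `3 σ = χ`; for `g = 4, 5, 6` they have `k ≤ 1, 2, 6`.

The proof uses that a covering of degree three has no nodes, that for degree three and for degree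
four the number of cusps is a multiple of three, and for the last part the bound for the number of
cusps from the Levine-Tristram signature (all in the starting files of helper834).
-/

set_option autoImplicit false

namespace Pool.Agent.Results.MP_dbd540_gt.TriplePlanes

open Pool.Agent.Helper834 Pool.Agent.Helper496.BraidFact

/-- `c₂ = χ` of a covering of degree `N` of the plane -/
def c2 {N d : ℕ} (X : Covering N d 1) : ℚ := 3 * N + 2 * (X.genus - 1) - X.κ

/-- the signature `σ = (c₁² - 2 c₂) / 3` of a covering of the plane -/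
def sgn {N d : ℕ} (X : Covering N d 1) : ℚ := (X.c1sq - 2 * c2 X) / 3

/-- `c₁²` of a covering of degree `N` of the Hirzebruch surface `F_k` -/
def c1sqF {N d k : ℕ} (X : Covering N d k) : ℚ :=
  8 * N - 3 / 2 * d * (k + 2) + (X.genus - 1)

/-- `c₂ = χ` of a covering of degree `N` of the Hirzebruch surface `F_k` -/
def c2F {N d k : ℕ} (X : Covering N d k) : ℚ := 4 * N + 2 * (X.genus - 1) - X.κ

/-- the signature `σ = (c₁² - 2 c₂) / 3` of a covering of `F_k` -/
def sgnF {N d k : ℕ} (X : Covering N d k) : ℚ := (c1sqF X - 2 * c2F X) / 3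

/-- `K` and `h` have the properties of the canonical class of `X` and of the pullback of the class of a
line, for a manifold `X` with the intersection form of the projective plane -/
def IsPair {N d : ℕ} (X : Covering N d 1) (K h : ℤ) : Prop :=
  ((K * K : ℤ) : ℚ) = X.c1sq ∧ h * h = N ∧ K * h = d - 3 * N

section proof

/-- two transpositions of two points are equal -/
theorem comm2 (a b : Equiv.Perm (Fin 2)) (ha : a.IsSwap) (hb : b.IsSwap) : a = b := by
  have key : ∀ a b : Equiv.Perm (Fin 2), a ≠ 1 → b ≠ 1 → a = b := by decide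
  refine key a b ?_ ?_
  · rintro rfl
    obtain ⟨x, y, hxy, h⟩ := ha
    have h4 := DFunLike.congr_fun h x
    rw [Equiv.swap_apply_left] at h4
    exact hxy h4
  · rintro rfl
    obtain ⟨x, y, hxy, h⟩ := hb
    have h4 := DFunLike.congr_fun h x
    rw [Equiv.swap_apply_left] at h4
    exact hxy h4

/-- a covering of degree two has neither nodes nor cusps -/
theorem two_none {d k : ℕ} (Y : Covering 2 d k) :
    Y.nodesPos = 0 ∧ Y.nodesNeg = 0 ∧ Y.κ = 0 := by
  have key : ∀ p ∈ Y.F, p.kind = .tangency := by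
    intro p hp
    have h1 := Y.compatible p hp
    have h2 := Tri.artin_isSwap p.b Y.θ Y.simple (lo p.i)
    have h3 := Tri.artin_isSwap p.b Y.θ Y.simple (hi p.i)
    have h4 := comm2 _ _ h2 h3
    rcases p with ⟨b, i, K⟩
    cases K
    · rfl
    · exact absurd h4 h1.1
    · exact absurd h4 h1.1
    · exfalso
      apply h1
      rw [h4]
  refine ⟨?_, ?_, ?_⟩
  · exact Covering.count_eq_zero _ _ fun p hp => by rw [key p hp]; decide
  · exact Covering.count_eq_zero _ _ fun p hp => by rw [key p hp]; decide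
  · exact Covering.count_eq_zero _ _ fun p hp => by rw [key p hp]; decide

/-- `3 σ = χ` over the plane -/
theorem eq_iff {N d : ℕ} (X : Covering N d 1) : 3 * sgn X = c2 X ↔
    16 * (X.κ : ℤ) + 10 * X.ν = 5 * d ^ 2 - 6 * d := by
  have h : 3 * sgn X = c2 X ↔ 16 * (X.κ : ℚ) + 10 * X.ν = 5 * d ^ 2 - 6 * d := by
    simp only [sgn, Covering.c1sq, c2, Covering.genus]
    push_cast
    constructor
    · intro h
      linarith
    · intro h
      linarith
  rw [h]
  exact_mod_cast Iff.rfl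

theorem chi_of {N d : ℕ} (X : Covering N d 1) (hp : X.nodesPos = 0) (hq : X.nodesNeg = 0)
    (h : 16 * (X.κ : ℤ) + 10 * X.ν = 5 * d ^ 2 - 6 * d) :
    16 * c2 X = d ^ 2 - 30 * d + 48 * N := by
  have h0 : X.ν = 0 := by
    simp [Covering.ν, hp, hq]
  rw [h0] at h
  have h' : 16 * (X.κ : ℚ) = 5 * d ^ 2 - 6 * d := by
    have : 16 * (X.κ : ℤ) = 5 * d ^ 2 - 6 * d := by linarith
    exact_mod_cast this
  simp only [c2, Covering.genus, h0]
  push_cast
  linarith

/-- the congruence -/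
theorem cong {d κ : ℕ} (he : Even d) (h3 : 3 ∣ κ) (h : 16 * (κ : ℤ) = 5 * d ^ 2 - 6 * d) :
    d % 24 = 0 ∨ d % 24 = 6 := by
  obtain ⟨e, rfl⟩ := he
  obtain ⟨m, rfl⟩ := h3
  have h1 : 12 * (m : ℤ) = e * (5 * e - 3) := by
    push_cast at h
    linarith
  have h2 : ((e : ℤ) * (5 * e - 3)) % 12 = 0 := by
    rw [← h1]
    exact Int.mul_emod_right 12 _
  have h4 : e % 12 = 0 ∨ e % 12 = 3 := by
    have h5 : ((e : ℤ) % 12 * (5 * (e % 12) - 3)) % 12 = 0 := by
      rw [← h2]
      rw [Int.mul_emod (e : ℤ), Int.mul_emod ((e : ℤ) % 12), Int.emod_emod_of_dvd _ (dvd_refl 12)]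
      congr 2
      rw [Int.sub_emod, Int.sub_emod (5 * (e : ℤ)), Int.mul_emod 5 (e : ℤ),
        Int.mul_emod 5 ((e : ℤ) % 12), Int.emod_emod_of_dvd _ (dvd_refl 12)]
    have h6 : (e : ℤ) % 12 = ((e % 12 : ℕ) : ℤ) := by push_cast; rfl
    rw [h6] at h5
    have h7 : e % 12 < 12 := Nat.mod_lt _ (by norm_num)
    generalize e % 12 = r at h5 h7
    interval_cases r <;> first | exact Or.inl rfl | exact Or.inr rfl | (exfalso; revert h5; norm_num)
  omega

/-- the shape of `χ` -/
theorem shape {d : ℕ} (h : d % 24 = 0 ∨ d % 24 = 6) (h0 : 0 < d) :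
    (d = 6 ∨ d = 24) ∨ 30 ≤ d ∧ ∃ t : ℕ, 1 ≤ t ∧
      (((d : ℚ) ^ 2 - 30 * d + 48 * 3) / 16 = 9 * t * (4 * t - 3) ∨
        ((d : ℚ) ^ 2 - 30 * d + 48 * 3) / 16 = 9 * t * (4 * t + 3)) := by
  rcases h with h | h
  · obtain ⟨s, rfl⟩ : ∃ s, d = 24 * s := ⟨d / 24, by omega⟩
    rcases Nat.lt_or_ge s 2 with h1 | h1
    · left
      right
      omega
    · right
      refine ⟨by omega, s - 1, by omega, Or.inr ?_⟩
      have e : ((s - 1 : ℕ) : ℚ) = s - 1 := by
        rw [Nat.cast_sub (by omega)]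
        norm_num
      rw [e]
      push_cast
      ring
  · obtain ⟨s, rfl⟩ : ∃ s, d = 24 * s + 6 := ⟨d / 24, by omega⟩
    rcases Nat.eq_zero_or_pos s with h1 | h1
    · left
      left
      omega
    · right
      refine ⟨by omega, s, h1, Or.inl ?_⟩
      push_cast
      ring

theorem eqF_iff {N d k : ℕ} (X : Covering N d k) : 3 * sgnF X = c2F X ↔
    16 * (X.κ : ℤ) + 10 * X.ν = 8 * N + 5 * k * d ^ 2 - 2 * k * d - 4 * d := by
  have h : 3 * sgnF X = c2F X ↔
      16 * (X.κ : ℚ) + 10 * X.ν = 8 * N + 5 * k * d ^ 2 - 2 * k * d - 4 * d := by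
    simp only [sgnF, c1sqF, c2F, Covering.genus]
    constructor
    · intro h
      linarith
    · intro h
      linarith
  rw [h]
  exact_mod_cast Iff.rfl

/-- arithmetic for the Hirzebruch surfaces -/
theorem arith2 {d k κ : ℕ} (he : Even d) (h2 : 2 ≤ d) (hk : 1 ≤ k)
    (h : 4 * (κ : ℤ) ≤
      k * d * (d - 1) + 2 * k * ((d / 6 : ℕ) : ℤ) * (((d / 6 : ℕ) : ℤ) + 1) -
        2 * ((d / 6 : ℕ) : ℤ) +
        2 * ((d : ℤ) - 1 - 2 * ((d / 6 : ℕ) : ℤ)) * ((k * d / 6 : ℕ) : ℤ)) :
    72 * (κ : ℤ) ≤ 23 * k * d ^ 2 - 18 * k * d - 6 * d + 16 := by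
  obtain ⟨m, r, hr, hd⟩ : ∃ m r : ℕ, r < 6 ∧ d = 6 * m + r :=
    ⟨d / 6, d % 6, Nat.mod_lt _ (by norm_num), (Nat.div_add_mod d 6).symm⟩
  have hm : d / 6 = m := by omega
  rw [hm] at h
  have hfl : 6 * ((k * d / 6 : ℕ) : ℤ) ≤ k * d := by
    have : 6 * (k * d / 6) ≤ k * d := Nat.mul_div_le _ _
    exact_mod_cast this
  have hc : (0 : ℤ) ≤ (d : ℤ) - 1 - 2 * m := by omega
  have h3 : ((d : ℤ) - 1 - 2 * m) * (6 * ((k * d / 6 : ℕ) : ℤ)) ≤
      ((d : ℤ) - 1 - 2 * m) * (k * d) := mul_le_mul_of_nonneg_left hfl hc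
  have h4 : 12 * (κ : ℤ) ≤ 3 * k * d * (d - 1) + 6 * k * m * (m + 1) - 6 * m +
      ((d : ℤ) - 1 - 2 * m) * (k * d) := by linarith
  clear h h3 hfl hc hm
  have hk0 : (1 : ℤ) ≤ k := by exact_mod_cast hk
  have hm0 : (0 : ℤ) ≤ m := Int.natCast_nonneg m
  have hkm : (m : ℤ) ≤ k * m := by nlinarith
  obtain ⟨e, he⟩ := he
  subst hd
  have hr' : r = 0 ∨ r = 2 ∨ r = 4 := by omega
  rcases hr' with rfl | rfl | rfl
  · push_cast at h4 ⊢
    linarith
  · push_cast at h4 ⊢
    linarith
  · push_cast at h4 ⊢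
    linarith

theorem boundF {N d k : ℕ} (X : Covering N d k) (hN : 2 ≤ N) (hk : 1 ≤ k)
    (hp : X.nodesPos = 0) (hq : X.nodesNeg = 0) (h : 3 * sgnF X = c2F X) :
    72 * (N : ℤ) ≤ k * d ^ 2 - 18 * k * d + 24 * d + 32 := by
  have h1 := X.ineq hN hk
  rw [hp, hq] at h1
  simp only [Nat.cast_zero, mul_zero, add_zero] at h1
  have h2 := arith2 X.even_d (X.two_le hN) hk h1
  have h3 := (eqF_iff X).1 h
  have h0 : X.ν = 0 := by simp [Covering.ν, hp, hq]
  rw [h0] at h3
  linarith

end proof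

/-- **Symplectic four-manifolds with `3 σ = χ` as coverings of small degree.** -/
theorem result :
    -- double coverings
    (∀ {d : ℕ} (X : Covering 2 d 1), 3 * sgn X ≠ c2 X) ∧
    (∀ {d k : ℕ} (X : Covering 2 d k), 1 ≤ k → 3 * sgnF X ≠ c2F X) ∧
    -- triple coverings of the plane
    (∀ {d : ℕ} (X : Covering 3 d 1), 3 * sgn X = c2 X →
      (d % 24 = 0 ∨ d % 24 = 6) ∧ c2 X = ((d : ℚ) - 6) * (d - 24) / 16 ∧
      (c2 X = 0 ∧ (d = 6 ∨ d = 24) ∨ 30 ≤ d ∧ ∃ t : ℕ, 1 ≤ t ∧
        (c2 X = 9 * t * (4 * t - 3) ∨ c2 X = 9 * t * (4 * t + 3)))) ∧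
    (∀ {d : ℕ} (X : Covering 3 d 1), ¬ (sgn X = 1 ∧ c2 X = 3)) ∧
    -- coverings of degree four without nodes
    (∀ {d : ℕ} (X : Covering 4 d 1), X.nodesPos = 0 → X.nodesNeg = 0 → 3 * sgn X = c2 X →
      (d % 24 = 0 ∨ d % 24 = 6) ∧ c2 X = ((d : ℚ) ^ 2 - 30 * d + 192) / 16 ∧
      (c2 X = 3 ∧ (d = 6 ∨ d = 24) ∨ 12 ≤ c2 X ∧ 30 ≤ d)) ∧
    -- the invariants of the projective plane
    (∀ {N d : ℕ} (X : Covering N d 1), (sgn X = 1 ∧ c2 X = 3) ↔
      ((X.κ : ℤ) = 9 * d - 15 * (N - 1) ∧ 2 * X.ν = d ^ 2 - 30 * d + 48 * (N - 1))) ∧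
    (∀ {N d : ℕ} (X : Covering N d 1), 2 ≤ N → X.nodesPos = 0 → X.nodesNeg = 0 →
      sgn X = 1 → c2 X = 3 → N = 4 ∧ (d = 6 ∧ X.κ = 9 ∨ d = 24 ∧ X.κ = 171)) ∧
    -- homotopy projective planes
    (∀ {N d : ℕ} (X : Covering N d 1), 1 ≤ N → sgn X = 1 → c2 X = 3 → ∀ K h : ℤ, IsPair X K h →
      (∃ m : ℤ, 1 ≤ m ∧ (N : ℤ) = m ^ 2 ∧
        (K * h < 0 ∧ (d : ℤ) = 3 * m * (m - 1) ∨ 0 < K * h ∧ (d : ℤ) = 3 * m * (m + 1))) ∧
      (2 ≤ N → X.nodesPos = 0 → X.nodesNeg = 0 → N = 4 ∧ d = 6 ∧ X.κ = 9 ∧ K * h < 0)) ∧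
    -- coverings of the Hirzebruch surfaces
    (∀ {N d k : ℕ} (X : Covering N d k), 2 ≤ N → 1 ≤ k →
      (N = 3 ∨ X.nodesPos = 0 ∧ X.nodesNeg = 0) → 3 * sgnF X = c2F X →
      72 * (N : ℤ) ≤ k * d ^ 2 - 18 * k * d + 24 * d + 32) ∧
    (∀ {d k : ℕ} (X : Covering 3 d k), 1 ≤ k → 3 * sgnF X = c2F X →
      12 ≤ d ∧ (d = 12 → k = 1) ∧ (d = 14 → k ≤ 2) ∧ (d = 16 → k ≤ 6)) := by
  have tri : ∀ {d : ℕ} (X : Covering 3 d 1), 3 * sgn X = c2 X →
      (d % 24 = 0 ∨ d % 24 = 6) ∧ 16 * c2 X = d ^ 2 - 30 * d + 48 * 3 ∧ 0 < d := by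
    intro d X h
    have h1 := (eq_iff X).1 h
    have hp := X.nodesPos_three
    have hq := X.nodesNeg_three
    have h2 := chi_of X hp hq h1
    have h0 : X.ν = 0 := by simp [Covering.ν, hp, hq]
    rw [h0] at h1
    have h3 := X.two_le (by norm_num)
    exact ⟨cong X.even_d X.three_dvd_three (by linarith), by exact_mod_cast h2, by omega⟩
  have inv : ∀ {N d : ℕ} (X : Covering N d 1), (sgn X = 1 ∧ c2 X = 3) ↔
      ((X.κ : ℤ) = 9 * d - 15 * (N - 1) ∧ 2 * X.ν = d ^ 2 - 30 * d + 48 * (N - 1)) := by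
    intro N d X
    have e : ((X.κ : ℤ) = 9 * d - 15 * (N - 1) ∧ 2 * X.ν = d ^ 2 - 30 * d + 48 * (N - 1)) ↔
        ((X.κ : ℚ) = 9 * d - 15 * (N - 1) ∧ 2 * (X.ν : ℚ) = d ^ 2 - 30 * d + 48 * (N - 1)) := by
      refine and_congr ?_ ?_
      · exact_mod_cast Iff.rfl
      · exact_mod_cast Iff.rfl
    rw [e]
    simp only [sgn, Covering.c1sq, c2, Covering.genus]
    push_cast
    constructor
    · rintro ⟨h1, h2⟩
      constructor
      · linarith
      · linarith
    · rintro ⟨h1, h2⟩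
      constructor
      · linarith
      · linarith
  have boundH : ∀ {N d k : ℕ} (X : Covering N d k), 2 ≤ N → 1 ≤ k →
      (N = 3 ∨ X.nodesPos = 0 ∧ X.nodesNeg = 0) → 3 * sgnF X = c2F X →
      72 * (N : ℤ) ≤ k * d ^ 2 - 18 * k * d + 24 * d + 32 := by
    intro N d k X hN hk hn h
    rcases hn with rfl | ⟨hp, hq⟩
    · exact boundF X hN hk X.nodesPos_three X.nodesNeg_three h
    · exact boundF X hN hk hp hq h
  have free : ∀ {N d : ℕ} (X : Covering N d 1), 2 ≤ N → X.nodesPos = 0 → X.nodesNeg = 0 →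
      sgn X = 1 → c2 X = 3 → N = 4 ∧ (d = 6 ∧ X.κ = 9 ∨ d = 24 ∧ X.κ = 171) := by
    intro N d X hN hp hq h1 h2
    obtain ⟨h3, h4⟩ := (inv X).1 ⟨h1, h2⟩
    have h0 : X.ν = 0 := by simp [Covering.ν, hp, hq]
    rw [h0] at h4
    have h5 : ((d : ℤ) - 15) ^ 2 = 225 - 48 * (N - 1) := by linarith
    have hN5 : N ≤ 5 := by
      by_contra hc
      have : (6 : ℤ) ≤ N := by
        have : 6 ≤ N := by omega
        exact_mod_cast this
      nlinarith [sq_nonneg ((d : ℤ) - 15)]
    have hd : (d : ℤ) ≤ 30 := by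
      have : (2 : ℤ) ≤ N := by exact_mod_cast hN
      nlinarith
    have hd' : d ≤ 30 := by exact_mod_cast hd
    have hN' : N = 2 ∨ N = 3 ∨ N = 4 ∨ N = 5 := by omega
    rcases hN' with rfl | rfl | rfl | rfl
    · exfalso
      interval_cases d <;> norm_num at h5
    · exfalso
      interval_cases d <;> norm_num at h5
    · refine ⟨rfl, ?_⟩
      have h6 : d = 6 ∨ d = 24 := by
        clear h3 h1 h2 h4 hd
        interval_cases d <;> first | exact Or.inl rfl | exact Or.inr rfl |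
          (exfalso; revert h5; norm_num)
      rcases h6 with rfl | rfl
      · left
        refine ⟨rfl, ?_⟩
        push_cast at h3
        omega
      · right
        refine ⟨rfl, ?_⟩
        push_cast at h3
        omega
    · exfalso
      interval_cases d <;> norm_num at h5
  have planes : ∀ {N d : ℕ} (X : Covering N d 1), 1 ≤ N → sgn X = 1 → c2 X = 3 → ∀ K h : ℤ,
      IsPair X K h → ∃ m : ℤ, 1 ≤ m ∧ (N : ℤ) = m ^ 2 ∧
        (K * h < 0 ∧ (d : ℤ) = 3 * m * (m - 1) ∨ 0 < K * h ∧ (d : ℤ) = 3 * m * (m + 1)) := by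
    intro N d X hN h1 h2 K h hp
    obtain ⟨hK, hh', hKh'⟩ := hp
    have h9 : X.c1sq = 9 := by
      unfold sgn at h1
      rw [h2] at h1
      linarith
    rw [h9] at hK
    have hK' : K * K = 9 := by exact_mod_cast hK
    have hN' : (1 : ℤ) ≤ N := by exact_mod_cast hN
    have hK3 : K = 3 ∨ K = -3 := by
      have h5 : (K - 3) * (K + 3) = 0 := by linarith
      rcases mul_eq_zero.1 h5 with h6 | h6
      · left; linarith
      · right; linarith
    have hm0 : 1 ≤ |h| := by
      by_contra hc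
      have : h = 0 := by
        have h5 : |h| < 1 := by linarith
        exact Int.abs_lt_one_iff.1 h5
      rw [this] at hh'
      linarith
    have hm2 : (N : ℤ) = |h| ^ 2 := by rw [sq_abs, ← hh']; ring
    have hKm : K * h = 3 * |h| ∨ K * h = -(3 * |h|) := by
      rcases hK3 with rfl | rfl <;> rcases abs_choice h with h6 | h6 <;> rw [h6]
      · left; ring
      · right; ring
      · right; ring
      · left; ring
    refine ⟨|h|, hm0, hm2, ?_⟩
    generalize |h| = m at hm0 hm2 hKm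
    rcases hKm with h6 | h6
    · right
      refine ⟨by rw [h6]; linarith, ?_⟩
      rw [h6, hm2] at hKh'
      linarith
    · left
      refine ⟨by rw [h6]; linarith, ?_⟩
      rw [h6, hm2] at hKh'
      linarith
  refine ⟨?_, ?_, ?_, ?_, ?_, inv, free, ?_, boundH, ?_⟩
  · intro d X h
    have h1 := (eq_iff X).1 h
    obtain ⟨hp, hq, hκ⟩ := two_none X
    have h0 : X.ν = 0 := by simp [Covering.ν, hp, hq]
    rw [h0, hκ] at h1
    have h2 := X.two_le (by norm_num)
    have h3 : (2 : ℤ) ≤ d := by exact_mod_cast h2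
    push_cast at h1
    nlinarith
  · intro d k X hk h
    have h1 := (eqF_iff X).1 h
    obtain ⟨hp, hq, hκ⟩ := two_none X
    have h0 : X.ν = 0 := by simp [Covering.ν, hp, hq]
    rw [h0, hκ] at h1
    have h2 := X.two_le (by norm_num)
    have h3 : (2 : ℤ) ≤ d := by exact_mod_cast h2
    have h4 : (1 : ℤ) ≤ k := by exact_mod_cast hk
    push_cast at h1
    have h5 : (0 : ℤ) ≤ k * d * (d - 2) := by
      refine mul_nonneg (mul_nonneg ?_ ?_) ?_ <;> linarith
    have h6 : (0 : ℤ) ≤ (k - 1) * d := by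
      refine mul_nonneg ?_ ?_ <;> linarith
    nlinarith
  · intro d X h
    obtain ⟨h1, h2, h3⟩ := tri X h
    refine ⟨h1, by linarith, ?_⟩
    have h4 : c2 X = ((d : ℚ) ^ 2 - 30 * d + 48 * 3) / 16 := by linarith
    rcases shape h1 h3 with h5 | ⟨h5, t, ht, h6⟩
    · left
      refine ⟨?_, h5⟩
      rw [h4]
      rcases h5 with rfl | rfl <;> norm_num
    · right
      refine ⟨h5, t, ht, ?_⟩
      rw [h4]
      exact h6
  · rintro d X ⟨h1, h2⟩
    obtain ⟨h3, h4, h5⟩ := tri X (by rw [h1, h2]; norm_num)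
    rcases shape h3 h5 with h6 | ⟨h6, t, ht, h7⟩
    · rw [h2] at h4
      rcases h6 with rfl | rfl <;> norm_num at h4
    · have h8 : c2 X = ((d : ℚ) ^ 2 - 30 * d + 48 * 3) / 16 := by linarith
      rw [← h8, h2] at h7
      have ht' : (1 : ℚ) ≤ t := by exact_mod_cast ht
      rcases h7 with h7 | h7
      · nlinarith
      · nlinarith
  · intro d X hp hq h
    have h1 := (eq_iff X).1 h
    have h2 := chi_of X hp hq h1
    have h0 : X.ν = 0 := by simp [Covering.ν, hp, hq]
    rw [h0] at h1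
    have h3 := X.two_le (by norm_num)
    have h4 := cong X.even_d X.three_dvd_four (by linarith)
    push_cast at h2
    have h5 : c2 X = ((d : ℚ) ^ 2 - 30 * d + 192) / 16 := by linarith
    refine ⟨h4, h5, ?_⟩
    have h6 : (d = 6 ∨ d = 24) ∨ 30 ≤ d := by omega
    rcases h6 with h6 | h6
    · left
      refine ⟨?_, h6⟩
      rw [h5]
      rcases h6 with rfl | rfl <;> norm_num
    · right
      refine ⟨?_, h6⟩
      rw [h5]
      have : (30 : ℚ) ≤ d := by exact_mod_cast h6
      nlinarith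
  · intro N d X hN h1 h2 K h hp
    refine ⟨planes X hN h1 h2 K h hp, fun hN2 hq hq' => ?_⟩
    obtain ⟨m, hm, hNm, h3⟩ := planes X hN h1 h2 K h hp
    obtain ⟨rfl, h4⟩ := free X hN2 hq hq' h1 h2
    have hm2 : m = 2 := by
      push_cast at hNm
      nlinarith
    rw [hm2] at h3
    rcases h4 with ⟨rfl, h5⟩ | ⟨rfl, h5⟩
    · refine ⟨rfl, rfl, h5, ?_⟩
      rcases h3 with h3 | h3
      · exact h3.1
      · exfalso
        have := h3.2
        norm_num at this
    · exfalso
      rcases h3 with h3 | h3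
      · have := h3.2
        norm_num at this
      · have := h3.2
        norm_num at this
  · intro d k X hk h
    have h1 := boundH X (by norm_num) hk (Or.inl rfl) h
    have h2 := X.two_le (by norm_num)
    have h3 := X.even_d
    have hk' : (1 : ℤ) ≤ k := by exact_mod_cast hk
    refine ⟨?_, ?_, ?_, ?_⟩
    · by_contra hc
      have h4 : d ≤ 11 := by omega
      clear h X
      interval_cases d <;> push_cast at h1 <;> first | omega | (exfalso; revert h3; decide)
    · rintro rfl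
      push_cast at h1
      omega
    · rintro rfl
      push_cast at h1
      omega
    · rintro rfl
      push_cast at h1
      omega

end Pool.Agent.Results.MP_dbd540_gt.TriplePlanes
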